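import Pool.Agent.W2helper41.Z.Law
import Pool.Agent.V11291.FK.Cub3

/-!
The law for the numbers with a fixed number of inert and split primes.
-/

set_option autoImplicit false
set_option linter.unusedSectionVars false
set_option linter.unusedVariables false

open scoped Classical

namespace Pool.Agent.W2helper41.Z

open Finset Filter Topology
open Pool.Agent.V11291.FK
open Pool.Agent.Y703.CQ (Gd)
open Pool.Agent.Y219.CQ (sp)
open Pool.Agent.W2helper41.X (Spl Ine mat)

/-- the split primes of `D` -/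
noncomputable def sps (D : ℕ) : Finset ℕ := D.primeFactors.filter fun p => p % 8 = 1

/-- the inert primes of `D` -/
noncomputable def ins (D : ℕ) : Finset ℕ := D.primeFactors.filter fun p => p % 8 = 5

/-- the family of the numbers: `k` split primes, `r` inert primes, all of them with the property
`A` -/
def Fam (A : ℕ → Prop) (k r D : ℕ) : Prop :=
  Squarefree D ∧ (∀ p ∈ D.primeFactors, Bd A p) ∧ (sps D).card = k ∧ (ins D).card = r

theorem ins_ine {A : ℕ → Prop} {k r D : ℕ} (h : Fam A k r D) : ∀ q ∈ ins D, Ine q := by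
  intro q hq
  unfold ins at hq
  rw [mem_filter] at hq
  rcases (h.2.1 q hq.1).2 with h1 | h1
  · have := h1.2.1
    omega
  · exact h1

theorem sps_spl {A : ℕ → Prop} {k r D : ℕ} (h : Fam A k r D) : ∀ p ∈ sps D, Spl p := by
  intro p hp
  unfold sps at hp
  rw [mem_filter] at hp
  rcases (h.2.1 p hp.1).2 with h1 | h1
  · exact h1
  · have := h1.2.1
    omega

theorem ins_union {A : ℕ → Prop} {k r D : ℕ} (h : Fam A k r D) : ins D ∪ sps D = D.primeFactors := by
  ext p
  unfold ins sps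
  rw [mem_union, mem_filter, mem_filter, ← and_or_left]
  constructor
  · exact fun h => h.1
  · intro hp
    refine ⟨hp, ?_⟩
    rcases (h.2.1 p hp).2 with h1 | h1
    · exact Or.inr h1.2.1
    · exact Or.inl h1.2.1

theorem prod_eq {A : ℕ → Prop} {k r D : ℕ} (h : Fam A k r D) :
    D = (∏ q ∈ ins D, q) * ∏ i ∈ sps D, i := by
  have hdis : Disjoint (ins D) (sps D) := by
    unfold ins sps
    rw [Finset.disjoint_left]
    intro q hq hq'
    rw [mem_filter] at hq hq'
    omega
  rw [← prod_union hdis, ins_union h, Nat.prod_primeFactors_of_squarefree h.1]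

/-- the good numbers -/
theorem gd_iff {A : ℕ → Prop} {k r D : ℕ} (h : Fam A k r D) :
    Gd f0 D.primeFactors ↔ (mat (sps D) (∏ q ∈ ins D, q)).det ≠ 0 := by
  rw [← ins_union h]
  exact gd_iff_det (sps_spl h) (ins_ine h)

/-- the index type -/
abbrev Iy (k r : ℕ) : Type := Fin k ⊕ Fin r

/-- the residues modulo `8` -/
def ty (k r : ℕ) : Iy k r → ℕ := Sum.elim (fun _ => 1) fun _ => 5

theorem card_Iy (k r : ℕ) : Fintype.card (Iy k r) = k + r := by
  rw [Fintype.card_sum, Fintype.card_fin, Fintype.card_fin]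

theorem ty_mem (k r : ℕ) (i : Iy k r) : ty k r i = 1 ∨ ty k r i = 5 := by
  rcases i with i | i
  · exact Or.inl rfl
  · exact Or.inr rfl

theorem card_ty (k r : ℕ) : (univ.filter fun i => ty k r i = 1).card = k ∧
    (univ.filter fun i => ty k r i = 5).card = r := by
  unfold ty
  refine ⟨?_, ?_⟩
  · rw [Finset.card_filter, Fintype.sum_sum_type]
    simp
  · rw [Finset.card_filter, Fintype.sum_sum_type]
    simp

/-- the conditions on the sets of primes -/
theorem fw_iff {A : ℕ → Prop} {k r X : ℕ} [LinearOrder (Iy k r)] {S : Finset ℕ} :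
    S ∈ FW (Bd A) (fun p => p % 8) (ty k r) Wt X ↔
      (∀ p ∈ S, Bd A p) ∧ (S.filter fun p => p % 8 = 1).card = k ∧
        (S.filter fun p => p % 8 = 5).card = r ∧ ∏ p ∈ S, p ≤ X := by
  obtain ⟨h1, h2⟩ := card_ty k r
  rw [mem_FW bd_prime]
  constructor
  · rintro ⟨a1, a2, a3, -⟩
    have a5 := a2 1
    have a6 := a2 5
    simp only at a5 a6
    rw [h1] at a5
    rw [h2] at a6
    exact ⟨a1, a5, a6, a3⟩
  · rintro ⟨b1, b2, b3, b4⟩
    refine ⟨b1, fun t => ?_, b4, trivial⟩
    by_cases hr1 : t = 1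
    · subst hr1
      rw [h1]
      exact b2
    by_cases hr2 : t = 5
    · subst hr2
      rw [h2]
      exact b3
    rw [Finset.card_eq_zero.2, Finset.card_eq_zero.2]
    · refine Finset.filter_eq_empty_iff.2 fun i _ h => ?_
      have := ty_mem k r i
      omega
    · refine Finset.filter_eq_empty_iff.2 fun p hp h => ?_
      simp only at h
      rcases (b1 p hp).2 with h3 | h3
      · have := h3.2.1
        omega
      · have := h3.2.1
        omega

theorem cnt_fam (A : ℕ → Prop) (k r X : ℕ) [LinearOrder (Iy k r)] (Q : Finset ℕ → Prop) :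
    ((Icc 1 X).filter fun D => Fam A k r D ∧ Q D.primeFactors).card =
      ((FW (Bd A) (fun p => p % 8) (ty k r) Wt X).filter Q).card := by
  refine Finset.card_bij' (fun D _ => D.primeFactors) (fun S _ => ∏ p ∈ S, p) ?_ ?_ ?_ ?_
  · intro D hD
    rw [mem_filter, mem_Icc] at hD
    obtain ⟨⟨h1, h2⟩, ⟨h3, h4, h5, h6⟩, h7⟩ := hD
    rw [mem_filter, fw_iff]
    refine ⟨⟨h4, h5, h6, ?_⟩, h7⟩
    rw [Nat.prod_primeFactors_of_squarefree h3]
    exact h2
  · intro S hS
    rw [mem_filter, fw_iff] at hS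
    obtain ⟨⟨h1, h2, h3, h4⟩, h5⟩ := hS
    have hpr : ∀ p ∈ S, p.Prime := fun p hp => bd_prime _ (h1 p hp)
    have e : (∏ p ∈ S, p).primeFactors = S := Nat.primeFactors_prod hpr
    rw [mem_filter, mem_Icc]
    refine ⟨⟨Finset.prod_pos fun p hp => (hpr p hp).pos, h4⟩, ⟨?_, ?_, ?_, ?_⟩, ?_⟩
    · exact Pool.Agent.Y687.squarefree_prod hpr
    · rw [e]
      exact h1
    · unfold sps
      rw [e]
      exact h2
    · unfold ins
      rw [e]
      exact h3
    · rw [e]
      exact h5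
  · intro D hD
    rw [mem_filter] at hD
    exact Nat.prod_primeFactors_of_squarefree hD.2.1.1
  · intro S hS
    rw [mem_filter, fw_iff] at hS
    exact Nat.primeFactors_prod fun p hp => bd_prime _ (hS.1.1 p hp)

theorem cnt_all (A : ℕ → Prop) (k r X : ℕ) [LinearOrder (Iy k r)] :
    ((Icc 1 X).filter fun D => Fam A k r D).card =
      (FW (Bd A) (fun p => p % 8) (ty k r) Wt X).card := by
  have e2 := cnt_fam A k r X Wt
  have e3 : (FW (Bd A) (fun p => p % 8) (ty k r) Wt X).filter Wt =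
      FW (Bd A) (fun p => p % 8) (ty k r) Wt X := by
    ext S
    rw [mem_filter]
    exact ⟨fun h => h.1, fun h => ⟨h, trivial⟩⟩
  have e4 : ((Icc 1 X).filter fun D => Fam A k r D ∧ Wt D.primeFactors) =
      (Icc 1 X).filter fun D => Fam A k r D := by
    ext D
    rw [mem_filter, mem_filter]
    exact ⟨fun h => ⟨h.1, h.2.1⟩, fun h => ⟨h.1, h.2, trivial⟩⟩
  rw [e3, e4] at e2
  exact e2

/-- the condition on the set of primes -/
def Rich (A : ℕ → Prop) : Prop := Dn (fun p => A p ∧ Spl p) ∧ Dn fun p => A p ∧ Ine p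

theorem dn_mono {P Q : ℕ → Prop} (hPQ : ∀ p, P p → Q p) (h : Dn P) : Dn Q := by
  obtain ⟨δ, Y₀, hδ, h⟩ := h
  refine ⟨δ, Y₀, hδ, fun Y hY => (h Y hY).trans ?_⟩
  exact_mod_cast Finset.card_le_card (Finset.monotone_filter_right _ fun p _ hp => hPQ p hp)

theorem rich_data {A : ℕ → Prop} {k r : ℕ} (h : Rich A) (i : Iy k r) :
    Dn (PG (Bd A) (fun p => p % 8) (ty k r) i) := by
  rcases i with i | i
  · exact dn_mono (fun p hp => ⟨⟨hp.1, Or.inl hp.2⟩, hp.2.2.1⟩) h.1
  · exact dn_mono (fun p hp => ⟨⟨hp.1, Or.inr hp.2⟩, hp.2.2.1⟩) h.2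

/-- **the law for the numbers** -/
theorem N_law {A : ℕ → Prop} {k r : ℕ} (hk : 0 < k) (hr : 0 < r) (hD : Rich A) :
    Tendsto (fun X : ℕ => (((Icc 1 X).filter fun D => Fam A k r D ∧
        (mat (sps D) (∏ q ∈ ins D, q)).det ≠ 0).card : ℝ) /
      (((Icc 1 X).filter fun D => Fam A k r D).card : ℝ)) atTop
      (𝓝 (∏ i ∈ range ((k + 1) / 2), (1 - (1 / 2 : ℝ) ^ (2 * i + 1)))) := by
  let _ : LinearOrder (Iy k r) := LinearOrder.lift' (Fintype.equivFin (Iy k r))
    (Fintype.equivFin (Iy k r)).injective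
  obtain ⟨h1, h2⟩ := card_ty k r
  have h := set_law (A := A) (ty_mem k r) ⟨Sum.inr ⟨0, hr⟩, rfl⟩ ⟨Sum.inl ⟨0, hk⟩, rfl⟩
    (rich_data hD)
  rw [h1] at h
  refine h.congr fun X => ?_
  have e1 := cnt_fam A k r X (Gd f0)
  have e2 := cnt_all A k r X
  have e5 : ((Icc 1 X).filter fun D => Fam A k r D ∧ Gd f0 D.primeFactors) =
      (Icc 1 X).filter fun D => Fam A k r D ∧ (mat (sps D) (∏ q ∈ ins D, q)).det ≠ 0 := by
    refine Finset.filter_congr fun D _ => ?_
    refine and_congr_right fun hF => gd_iff hF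
  rw [e5] at e1
  rw [e1, e2]

/-- the size of the family -/
theorem N_size {A : ℕ → Prop} {k r : ℕ} (hk : 0 < k) (hD : Rich A) :
    ∃ (c C : ℝ) (X₀ : ℕ), 0 < c ∧ 0 < C ∧ ∀ X : ℕ, X₀ ≤ X →
      c * (X * Real.log (Real.log X) ^ (k + r - 1) / Real.log X) ≤
        (((Icc 1 X).filter fun D => Fam A k r D).card : ℝ) ∧
      (((Icc 1 X).filter fun D => Fam A k r D).card : ℝ) ≤
        C * (X * Real.log (Real.log X) ^ (k + r - 1) / Real.log X) := by
  let _ : LinearOrder (Iy k r) := LinearOrder.lift' (Fintype.equivFin (Iy k r))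
    (Fintype.equivFin (Iy k r)).injective
  obtain ⟨c, X₀, hc, hlow⟩ := FW_low (W := Wt) (bd_prime (A := A)) (Sum.inl ⟨0, hk⟩ : Iy k r)
    (lowH (A := A) (τ := ty k r) (Sum.inl ⟨0, hk⟩ : Iy k r) (rich_data hD))
  obtain ⟨C, X₁, hC, hup⟩ := FW_up (B := Bd A) (cl := fun p => p % 8) (τ := ty k r) bd_prime
    (j := k + r - 1) (by rw [card_Iy]; omega) Wt
  refine ⟨c, C, max X₀ X₁, hc, hC, fun X hX => ?_⟩
  have e2 := cnt_all A k r X
  rw [e2]
  have h6 := hlow X ((le_max_left _ _).trans hX)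
  rw [card_Iy] at h6
  exact ⟨h6, hup X ((le_max_right _ _).trans hX)⟩

/-! ### residue classes -/

/-- the primes in a residue class modulo a number prime to `14` -/
theorem rich_class {N a : ℕ} (hN : Nat.Coprime N 14) (ha : Nat.Coprime a N) :
    Rich fun p => p % N = a % N := by
  have h56 : Nat.Coprime 56 N := by
    have h1 : Nat.Coprime (14 ^ 3) N := Nat.Coprime.pow_left 3 hN.symm
    exact Nat.Coprime.coprime_dvd_left (by norm_num) h1
  have hN0 : 1 ≤ N := by
    rcases Nat.eq_zero_or_pos N with h | h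
    · subst h
      exact absurd hN (by decide)
    · exact h
  have key : ∀ s : ℕ, s < 56 → Nat.Coprime s 56 →
      Dn fun p => p % N = a % N ∧ p.Prime ∧ p % 56 = s := by
    intro s hs hs56
    obtain ⟨y, hy56, hyN⟩ := Nat.chineseRemainder h56 s a
    have hy : y % 56 = s := by
      have h1 : y % 56 = s % 56 := hy56
      rwa [Nat.mod_eq_of_lt hs] at h1
    have hco : Nat.Coprime y (56 * N) := by
      apply Nat.Coprime.mul_right
      · rw [Nat.coprime_comm, Nat.Coprime, Nat.gcd_rec, hy]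
        exact hs56
      · have h1 : y % N = a % N := hyN
        rw [Nat.coprime_comm, Nat.Coprime, Nat.gcd_rec, h1, ← Nat.gcd_rec]
        exact ha.symm
    refine dn_mono (fun p hp => ?_) (Cb.pai_low' (56 * N) (by omega) y hco)
    obtain ⟨hp2, hp3⟩ := hp
    have h6 : p % N = y % N := Nat.ModEq.of_mul_left 56 hp3
    have h7 : p % 56 = y % 56 := Nat.ModEq.of_mul_right N hp3
    exact ⟨h6.trans hyN, hp2, h7.trans hy⟩
  refine ⟨dn_mono (fun p hp => ?_) (key 1 (by norm_num) (by norm_num)),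
    dn_mono (fun p hp => ?_) (key 5 (by norm_num) (by norm_num))⟩
  · obtain ⟨h1, h2, h3⟩ := hp
    exact ⟨h1, h2, by omega, by omega⟩
  · obtain ⟨h1, h2, h3⟩ := hp
    exact ⟨h1, h2, by omega, by omega⟩

end Pool.Agent.W2helper41.Z
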