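import Pool.Agent.W2helper41.Y.Exa
import Pool.Agent.Y703.CQ.Stm

/-!
The matrix of the residue symbols and the good sets.
-/

set_option autoImplicit false

open Finset

namespace Pool.Agent.W2helper41.Z

open scoped Classical

open Pool.Agent.W2helper41.X Pool.Agent.W2helper41.Y

variable {P T : Finset ℕ}

/-- the function on the diagonal -/
noncomputable def f0 (p : ℕ) : ZMod 2 := X.nr 1 p

/-- the local symbol of a product of inert primes -/
theorem nr_T (hT : ∀ q ∈ T, Ine q) {p : ℕ} (hp : Spl p) :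
    X.nr (∏ q ∈ T, q) p = f0 p + ∑ q ∈ T, ns ((q : ℕ) : ZMod p) := by
  induction T using Finset.induction_on with
  | empty => simp [f0]
  | insert q T hq ih =>
    have hT' : ∀ r ∈ T, Ine r := fun r hr => hT r (mem_insert_of_mem hr)
    have hq' : Ine q := hT q (mem_insert_self q T)
    have hpm : ¬ p ∣ ∏ q ∈ T, q := by
      intro h
      obtain ⟨r, hr, hpr⟩ := (Prime.dvd_finset_prod_iff hp.1.prime _).1 h
      have h1 := (Nat.prime_dvd_prime_iff_eq hp.1 (hT' r hr).1).1 hpr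
      have h2 := (hT' r hr).2.1
      have h3 := hp.2.1
      omega
    rw [prod_insert hq, sum_insert hq, mul_comm q, nr_mul hp (T_four hT') hpm hq', ih hT']
    ring

/-- the rows of the system -/
theorem row_eq (hP : ∀ p ∈ P, Spl p) (hT : ∀ q ∈ T, Ine q) (x : ℕ → ZMod 2) (j : P) :
    (mat P (∏ q ∈ T, q)).mulVec (fun i => x i) j =
      ∑ q ∈ T ∪ P, Pool.Agent.Y703.CQ.nr j q * (Pool.Agent.Y703.CQ.cu x q + x j) + f0 j * x j := by
  have hdis : Disjoint T P := by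
    rw [Finset.disjoint_left]
    intro q hq hq'
    have h1 := (hT q hq).2.1
    have h2 := (hP q hq').2.1
    omega
  have hnr : ∀ q : ℕ, Pool.Agent.Y703.CQ.nr (j : ℕ) q = ns ((q : ℕ) : ZMod (j : ℕ)) := fun q => rfl
  rw [sum_union hdis]
  simp only [hnr]
  have e1 : ∑ q ∈ T, ns ((q : ℕ) : ZMod (j : ℕ)) * (Pool.Agent.Y703.CQ.cu x q + x j) =
      (∑ q ∈ T, ns ((q : ℕ) : ZMod (j : ℕ))) * x j := by
    rw [sum_mul]
    refine sum_congr rfl fun q hq => ?_
    have h1 := (hT q hq).2.1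
    unfold Pool.Agent.Y703.CQ.cu
    rw [if_neg (by omega), zero_add]
  have h0 : ns (((j : ℕ) : ℕ) : ZMod (j : ℕ)) = 0 := by
    rw [ns_eq_zero, ZMod.natCast_self]
    exact ⟨0, by simp⟩
  have e2 : ∑ q ∈ P, ns ((q : ℕ) : ZMod (j : ℕ)) * (Pool.Agent.Y703.CQ.cu x q + x j) =
      ∑ q ∈ P.erase j, ns ((q : ℕ) : ZMod (j : ℕ)) * x q +
      (∑ q ∈ P.erase j, ns ((q : ℕ) : ZMod (j : ℕ))) * x j := by
    rw [← add_sum_erase P _ j.2, h0, zero_mul, zero_add, sum_mul, ← sum_add_distrib]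
    refine sum_congr rfl fun q hq => ?_
    have h1 := (hP q (mem_of_mem_erase hq)).2.1
    unfold Pool.Agent.Y703.CQ.cu
    rw [if_pos h1, mul_add]
  rw [e1, e2]
  unfold Matrix.mulVec dotProduct
  have e3 : ∀ i : P, (mat P (∏ q ∈ T, q)) j i * x i =
      (fun i : ℕ => (if i = j then X.nr (∏ q ∈ T, q) j + ∑ l ∈ P.erase j,
        ns ((l : ℕ) : ZMod (j : ℕ)) else ns ((i : ℕ) : ZMod (j : ℕ))) * x i) (i : ℕ) := by
    intro i
    unfold mat
    simp only [Matrix.of_apply, Subtype.ext_iff]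
  rw [sum_congr rfl fun i _ => e3 i, sum_coe_sort P (fun i : ℕ => (if i = (j : ℕ) then
      X.nr (∏ q ∈ T, q) j + ∑ l ∈ P.erase j, ns ((l : ℕ) : ZMod (j : ℕ)) else
      ns ((i : ℕ) : ZMod (j : ℕ))) * x i), ← add_sum_erase P _ j.2, if_pos rfl,
    nr_T hT (hP j j.2)]
  have e4 : ∑ i ∈ P.erase j, (if i = (j : ℕ) then f0 j + ∑ q ∈ T, ns ((q : ℕ) : ZMod (j : ℕ)) +
      ∑ l ∈ P.erase j, ns ((l : ℕ) : ZMod (j : ℕ)) else ns ((i : ℕ) : ZMod (j : ℕ))) * x i =
      ∑ i ∈ P.erase j, ns ((i : ℕ) : ZMod (j : ℕ)) * x i := by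
    refine sum_congr rfl fun i hi => ?_
    rw [if_neg (ne_of_mem_erase hi)]
  rw [e4]
  ring

/-- the good sets are the sets with a nonsingular matrix -/
theorem gd_iff_det (hP : ∀ p ∈ P, Spl p) (hT : ∀ q ∈ T, Ine q) :
    Pool.Agent.Y703.CQ.Gd f0 (T ∪ P) ↔ (mat P (∏ q ∈ T, q)).det ≠ 0 := by
  have hmem : ∀ p, p ∈ T ∪ P → p % 8 = 1 → p ∈ P := by
    intro p hp h8
    rcases mem_union.1 hp with h | h
    · have := (hT p h).2.1
      omega
    · exact h
  constructor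
  · intro hG hdet
    obtain ⟨v, hv0, hv⟩ := Matrix.exists_mulVec_eq_zero_iff.2 hdet
    set x : ℕ → ZMod 2 := fun n => if h : n ∈ P then v ⟨n, h⟩ else 0 with hx
    have hxv : (fun i : P => x i) = v := by
      funext i
      rw [hx]
      simp only [i.2, dif_pos]
    apply hv0
    rw [← hxv]
    funext i
    refine hG x (fun p hp h8 => ?_) i (mem_union_right _ i.2) (hP i i.2).2.1
    have hpP := hmem p hp h8
    have h1 := row_eq hP hT x ⟨p, hpP⟩
    rw [hxv, hv, Pi.zero_apply] at h1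
    exact h1.symm
  · intro hdet x hx p hp h8
    have hpP := hmem p hp h8
    have h1 : (mat P (∏ q ∈ T, q)).mulVec (fun i => x i) = 0 := by
      funext j
      rw [row_eq hP hT x j, Pi.zero_apply]
      exact hx j (mem_union_right _ j.2) (hP j j.2).2.1
    have h2 := Matrix.eq_zero_of_mulVec_eq_zero hdet h1
    exact congrFun h2 ⟨p, hpP⟩

end Pool.Agent.W2helper41.Z
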