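import Pool.Agent.W2helper41.Z.Cnt
import Pool.Agent.W2helper41.Z.Mat
import Pool.Agent.Y839.CQ.SYM
import Pool.Agent.Y356.CQ.EQ
import Pool.Agent.Y710.CQ.BIL

/-!
The law for the sets of a fixed number of inert and split primes.
-/

set_option autoImplicit false
set_option linter.unusedSectionVars false
set_option linter.unusedVariables false

open scoped Classical

namespace Pool.Agent.W2helper41.Z

open Finset Filter Topology
open Pool.Agent.V11291.FK
open Pool.Agent.Y703.CX (sm la jj XX)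
open Pool.Agent.Y703.CQ (Gd)
open Pool.Agent.Y219.CQ (sp)
open Pool.Agent.W2helper41.X (Spl Ine)

variable {ι : Type} [Fintype ι] [LinearOrder ι]

/-- the primes with the property `A` which are split or inert -/
def Bd (A : ℕ → Prop) (p : ℕ) : Prop := A p ∧ (Spl p ∨ Ine p)

theorem bd_prime {A : ℕ → Prop} : ∀ p, Bd A p → p.Prime := fun _ h => h.2.elim (fun h => h.1) fun h => h.1

/-- no condition -/
def Wt (_ : Finset ℕ) : Prop := True

theorem tw_eq (A : ℕ → Prop) (τ : ι → ℕ) (X : ℕ) :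
    TW (Bd A) (fun p => p % 8) τ Wt X = Tup (PG (Bd A) (fun p => p % 8) τ) X := by
  ext p
  rw [mem_TW bd_prime, mem_Tup fun i q h => bd_prime _ h.1]
  exact ⟨fun h => h.1, fun h => ⟨h, trivial⟩⟩

theorem sp_nonneg (k : ℕ) : 0 ≤ sp k := by
  unfold sp
  refine Finset.prod_nonneg fun i _ => ?_
  have : (1 / 2 : ℝ) ^ (2 * i + 1) ≤ 1 := pow_le_one₀ (by norm_num) (by norm_num)
  linarith

theorem sp_le_one (k : ℕ) : sp k ≤ 1 := by
  unfold sp
  refine Finset.prod_le_one (fun i _ => ?_) fun i _ => ?_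
  · have : (1 / 2 : ℝ) ^ (2 * i + 1) ≤ 1 := pow_le_one₀ (by norm_num) (by norm_num)
    linarith
  · have : (0 : ℝ) ≤ (1 / 2 : ℝ) ^ (2 * i + 1) := by positivity
    linarith

/-- the hypothesis on the boxes holds -/
theorem boxH (A : ℕ → Prop) {τ : ι → ℕ} (hτ : ∀ i, τ i = 1 ∨ τ i = 5) (h5 : ∃ i, τ i = 5)
    (f : ℕ → ZMod 2) :
    BoxH (TW (Bd A) (fun p => p % 8) τ Wt) (fun p => Gd f (univ.image p))
      (sp (univ.filter fun i => τ i = 1).card) := by
  set J1 : Finset ι := univ.filter fun i => τ i = 1 with hJ1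
  obtain ⟨C, hC, hbox⟩ := sum_boxes Pool.Agent.Y839.CQ.t_SYM Pool.Agent.Y356.CQ.t_EQ
    Pool.Agent.Y710.CQ.t_BIL J1 (by
      obtain ⟨i, hi⟩ := h5
      refine ⟨i, fun h => ?_⟩
      have h1 := (Finset.mem_filter.1 h).2
      omega)
  refine ⟨2 ^ (Fintype.card ι + Fintype.card ι ^ 2), C, by positivity, hC, ?_⟩
  intro X z H N κ hH hz hκ hκz hN
  rw [tw_eq]
  refine hbox (PG (Bd A) (fun p => p % 8) τ) f X z H N κ (fun i p h => ?_) hH hz hκ hκz hN
  obtain ⟨⟨h1, h2⟩, h3⟩ := h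
  have h4 : p % 8 = τ i := h3
  refine ⟨h2.elim (fun h => h.1) fun h => h.1, ?_, ?_⟩
  · rintro rfl
    rcases h2 with h | h
    · have := h.2.1
      omega
    · have := h.2.1
      omega
  · constructor
    · intro h
      rw [h4]
      exact (Finset.mem_filter.1 h).2
    · intro h
      exact Finset.mem_filter.2 ⟨mem_univ _, by rw [← h4]; exact h⟩

/-- the hypothesis on the exceptional tuples holds -/
theorem excH (A : ℕ → Prop) {τ : ι → ℕ} {j : ℕ} (hj : Fintype.card ι = j + 1) :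
    ExcH (TW (Bd A) (fun p => p % 8) τ Wt) j := by
  refine exc_abs hj PS (fun X p hp => ?_)
    (fun X z H hX hH => cut_count hH)
    (fun X z H hX hH => coll_count hH)
  rw [mem_TW bd_prime] at hp
  obtain ⟨⟨h3, h4, h5⟩, -⟩ := hp
  refine ⟨fun i => bd_prime _ (h3 i).1, h4, h5, ?_⟩
  rw [mem_PS]
  refine ⟨fun q hq => ?_, ?_⟩
  · rw [mem_image] at hq
    obtain ⟨i, -, rfl⟩ := hq
    exact bd_prime _ (h3 i).1
  · rw [Finset.prod_image fun a _ b _ h => h4 h]
    exact h5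

/-- the hypothesis on the size holds -/
theorem lowH {A : ℕ → Prop} {τ : ι → ℕ} (i₀ : ι)
    (hD : ∀ i, Dn (PG (Bd A) (fun p => p % 8) τ i)) :
    LowH (TW (Bd A) (fun p => p % 8) τ Wt) := by
  obtain ⟨c, X₀, hc, h⟩ := low (P := PG (Bd A) (fun p => p % 8) τ) (fun i p h => bd_prime _ h.1) hD i₀
  refine ⟨c, X₀, hc, fun X hX => (h X hX).trans ?_⟩
  rw [tw_eq]

/-- **The law for the sets.** -/
theorem set_law {A : ℕ → Prop} {τ : ι → ℕ} (hτ : ∀ i, τ i = 1 ∨ τ i = 5)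
    (h5 : ∃ i, τ i = 5) (h1 : ∃ i, τ i = 1) (hD : ∀ i, Dn (PG (Bd A) (fun p => p % 8) τ i)) :
    Tendsto (fun X : ℕ => (((FW (Bd A) (fun p => p % 8) τ Wt X).filter (Gd f0)).card : ℝ) /
      ((FW (Bd A) (fun p => p % 8) τ Wt X).card : ℝ)) atTop
      (𝓝 (sp (univ.filter fun i => τ i = 1).card)) := by
  obtain ⟨i₁, hi₁⟩ := h1
  obtain ⟨i₂, hi₂⟩ := h5
  have hne : i₁ ≠ i₂ := by
    rintro rfl
    omega
  have hc : 2 ≤ Fintype.card ι := Fintype.one_lt_card_iff.2 ⟨i₁, i₂, hne⟩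
  obtain ⟨j, hj⟩ : ∃ j, Fintype.card ι = j + 2 := ⟨Fintype.card ι - 2, by omega⟩
  exact set_lawG bd_prime Wt hj (sp_nonneg _) (sp_le_one _) (boxH A hτ ⟨i₂, hi₂⟩ f0)
    (excH A (by omega)) (lowH i₁ hD)

end Pool.Agent.W2helper41.Z
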